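import Pool.Agent.N536.SG.Defs

/-!
# Even and odd direct summands of a motive
-/

open CategoryTheory AlgebraicGeometry Finset

set_option autoImplicit false

universe u v

namespace Pool.Agent.N536.HK

open Pool.Agent.H914 VarClass Obj WeilCohomology Pool.Agent.TH133.PW Pool.Agent.N103.OC
  Pool.Agent.H447 Filter

section Alg

variable {K : Type*} {V : Type*} [Field K] [AddCommGroup V] [Module K V]

/-- `e` is an idempotent linear combination of the operators in `S` which vanishes on all `gr m` with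
`m` odd. -/
def EvenSummand (gr : ℕ → Submodule K V) (S : Set (V →ₗ[K] V)) (e : Module.End K V) : Prop :=
  e ∈ Submodule.span K S ∧ e * e = e ∧ ∀ m, Odd m → ∀ x ∈ gr m, e x = 0

/-- `e` is an idempotent linear combination of the operators in `S` which vanishes on all `gr m` with
`m` even. -/
def OddSummand (gr : ℕ → Submodule K V) (S : Set (V →ₗ[K] V)) (e : Module.End K V) : Prop :=
  e ∈ Submodule.span K S ∧ e * e = e ∧ ∀ m, Even m → ∀ x ∈ gr m, e x = 0

/-- The numbers `rank e₀ + rank e₁` for an even summand `e₀` and an odd summand `e₁`. -/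
def summandRanks (gr : ℕ → Submodule K V) (S : Set (V →ₗ[K] V)) : Set ℕ :=
  {r | ∃ e₀ e₁ : Module.End K V, EvenSummand gr S e₀ ∧ OddSummand gr S e₁ ∧
    r = Module.finrank K (LinearMap.range e₀) + Module.finrank K (LinearMap.range e₁)}

end Alg

variable {k : Type u} [Field k] {𝒱 : VarClass k} {ops : CycleOps 𝒱}

/-- The dimension of the whole cohomology of `Y`. -/
noncomputable def cohDim (W : WeilCohomology.{u, v} ops) (Y : 𝒱.Obj) : ℕ :=
  Module.finrank W.K (W.H Y)

/-- The numbers `rank e₀ + rank e₁`, where `e₀` and `e₁` are idempotent combinations, with coefficients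
in the coefficient field `K` of the cohomology, of cycles of codimension `dim Y` on `Y × Y`, acting on
the cohomology of `Y`, `e₀` is zero on the odd and `e₁` is zero on the even cohomology. -/
def ranksOf (W : WeilCohomology.{u, v} ops) (Y : 𝒱.Obj) : Set ℕ :=
  summandRanks (W.gr Y) (cycleOperators W Y Y.dim)

/-- The dimension of the largest direct summand of the motive of `Y` (for the homological equivalence
given by `W`, with coefficients in `K`) which is the sum of an even and an odd motive. -/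
noncomputable def evenOddDim (W : WeilCohomology.{u, v} ops) (Y : 𝒱.Obj) : ℕ :=
  sSup (ranksOf W Y)

/-- `2 c(Y) ≤ b(X)^n + (b(X) - 2)^n` for `Y = X^n` or for `Y = X^(n+1)` with `n + 1` in the place of
`n`, where `b` is `cohDim` and `c` is `evenOddDim`. -/
def HalfAt (W : WeilCohomology.{u, v} ops) (X : 𝒱.Obj) (n : ℕ) : Prop :=
  2 * evenOddDim W (pw X n) ≤ cohDim W X ^ n + (cohDim W X - 2) ^ n ∨
    2 * evenOddDim W (pw X (n + 1)) ≤ cohDim W X ^ (n + 1) + (cohDim W X - 2) ^ (n + 1)

/-- `c(Y) ≥ (1 / 2 + f(b(Y))) b(Y)`. -/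
def MoreThanHalf (W : WeilCohomology.{u, v} ops) (f : ℕ → ℝ) (Y : 𝒱.Obj) : Prop :=
  (1 / 2 + f (cohDim W Y)) * cohDim W Y ≤ evenOddDim W Y

/-- For `0 < ε ≤ 1 / 2` the sign conjecture for `X` is equivalent to `c(X^n) ≥ (1 / 2 + ε) b(X^n)` for
all large `n`; and the sign conjecture for all varieties is equivalent to `c(Y) ≥ (1 / 2 + ε) b(Y)` for
all `Y`. -/
def SignIffHalf (W : WeilCohomology.{u, v} ops) : Prop :=
  ∀ ε : ℝ, 0 < ε → ε ≤ 1 / 2 →
    (∀ X : 𝒱.Obj, SignStd W X ↔ ∃ n₀, ∀ n ≥ n₀, MoreThanHalf W (fun _ => ε) (pw X n)) ∧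
    ((∀ Y : 𝒱.Obj, SignStd W Y) ↔ ∀ Y : 𝒱.Obj, MoreThanHalf W (fun _ => ε) Y)

/-- The sign conjecture for `X` follows from `c(X^n) ≥ (1 / 2 + f(b(X^n))) b(X^n)` for all large `n`,
if `f(y) y^κ` tends to infinity for all `κ > 0`. -/
def SignFromRate (W : WeilCohomology.{u, v} ops) : Prop :=
  ∀ f : ℕ → ℝ, (∀ κ : ℝ, 0 < κ → Tendsto (fun y : ℕ => f y * (y : ℝ) ^ κ) atTop atTop) →
    ∀ X : 𝒱.Obj, (∃ n₀, ∀ n ≥ n₀, MoreThanHalf W f (pw X n)) → SignStd W X

end Pool.Agent.N536.HK
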