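import Pool.Agent.H914R2.Core0

/-!
# Idempotents of maximal rank
-/

set_option autoImplicit false

open Polynomial Module

namespace Pool.Agent.N536.HK

open Pool.Agent.H914

variable {K : Type*} {V : Type*} [Field K] [CharZero K] [AddCommGroup V] [Module K V]
  [FiniteDimensional K V]

lemma trace_idem {e : Module.End K V} (he : e * e = e) :
    LinearMap.trace K V e = (finrank K (LinearMap.range e) : K) := by
  have h : IsIdempotentElem e := he
  exact (LinearMap.IsIdempotentElem.isProj_range e h).trace

lemma idem_add {e f : Module.End K V} (he : e * e = e) (hf : f * f = f) (h1 : e * f = 0)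
    (h2 : f * e = 0) : (e + f) * (e + f) = e + f := by
  rw [mul_add, add_mul, add_mul, he, hf, h1, h2, add_zero, zero_add]

lemma rank_add {e f : Module.End K V} (he : e * e = e) (hf : f * f = f) (h1 : e * f = 0)
    (h2 : f * e = 0) : finrank K (LinearMap.range (e + f)) =
      finrank K (LinearMap.range e) + finrank K (LinearMap.range f) := by
  have h3 := trace_idem (idem_add he hf h1 h2)
  rw [map_add, trace_idem he, trace_idem hf] at h3
  exact_mod_cast h3.symm

lemma idem_compl {e : Module.End K V} (he : e * e = e) : (1 - e) * (1 - e) = 1 - e := by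
  rw [mul_sub, sub_mul, sub_mul, he]
  simp

/-- An idempotent of maximal rank. -/
lemma exists_max_idem (S : Submodule K (Module.End K V)) (hS : ∀ a ∈ S, ∀ b ∈ S, a * b ∈ S) :
    ∃ e ∈ S, e * e = e ∧ ∀ a ∈ S, LinearMap.trace K V ((1 - e) * a) = 0 := by
  classical
  let P : ℕ → Prop := fun r => ∃ e ∈ S, e * e = e ∧ finrank K (LinearMap.range e) = r
  have hP0 : P 0 := ⟨0, S.zero_mem, by simp, by rw [LinearMap.range_zero, finrank_bot]⟩
  have hbd : ∀ e : Module.End K V, finrank K (LinearMap.range e) ≤ finrank K V := fun e =>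
    Submodule.finrank_le _
  obtain ⟨e, heS, he, her⟩ : P (Nat.findGreatest P (finrank K V)) :=
    Nat.findGreatest_spec (Nat.zero_le _) hP0
  refine ⟨e, heS, he, fun a ha => ?_⟩
  by_contra htr
  set c := (1 - e) * a * (1 - e) with hc
  have hcS : c ∈ S := by
    have h1 : c = a - e * a - a * e + e * a * e := by
      rw [hc]
      noncomm_ring
    rw [h1]
    exact S.add_mem (S.sub_mem (S.sub_mem ha (hS _ heS _ ha)) (hS _ ha _ heS))
      (hS _ (hS _ heS _ ha) _ heS)
  have hctr : LinearMap.trace K V c ≠ 0 := by
    rw [hc, LinearMap.trace_mul_comm, ← mul_assoc, idem_compl he]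
    exact htr
  obtain ⟨w, k, hw0, hw, hkw, g, hg⟩ := exists_fitting c
  set f := 1 - aeval c w with hf
  have hfid : f * f = f := idem_compl hw
  have hfg : f = c * aeval c g := by
    rw [hf]
    have := congrArg (aeval c) hg
    rw [map_sub, map_one, map_mul, aeval_X] at this
    exact this
  have hf0 : f ≠ 0 := by
    intro h0
    rw [hf, sub_eq_zero] at h0
    rw [← h0, mul_one] at hkw
    have h1 : IsNilpotent c := ⟨k, hkw⟩
    have h2 := LinearMap.isNilpotent_trace_of_isNilpotent h1
    exact hctr h2.eq_zero
  have hpow : ∀ n : ℕ, c ^ (n + 1) ∈ S := by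
    intro n
    induction n with
    | zero => rw [zero_add, pow_one]; exact hcS
    | succ n ih => rw [pow_succ]; exact hS _ ih _ hcS
  have hgen : ∀ g : K[X], c * aeval c g ∈ S := by
    intro g
    induction g using Polynomial.induction_on' with
    | add p q hp hq => rw [map_add, mul_add]; exact S.add_mem hp hq
    | monomial r b =>
      rw [aeval_monomial, ← mul_assoc, ← Algebra.commutes, mul_assoc, ← pow_succ',
        ← Algebra.smul_def]
      exact S.smul_mem _ (hpow r)
  have hfS : f ∈ S := by
    rw [hfg]
    exact hgen g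
  have hec : e * c = 0 := by
    have : e * c = (e - e * e) * (a * (1 - e)) := by
      rw [hc]
      noncomm_ring
    rw [this, he, sub_self, zero_mul]
  have hce : c * e = 0 := by
    have : c * e = ((1 - e) * a) * (e - e * e) := by
      rw [hc]
      noncomm_ring
    rw [this, he, sub_self, mul_zero]
  have hef : e * f = 0 := by rw [hfg, ← mul_assoc, hec, zero_mul]
  have hfe : f * e = 0 := by
    have hcomm : c * aeval c g = aeval c g * c := by
      have h1 : aeval c (X * g) = aeval c (g * X) := by rw [mul_comm]
      rw [map_mul, map_mul, aeval_X] at h1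
      exact h1
    rw [hfg, hcomm, mul_assoc, hce, mul_zero]
  have hrk := rank_add he hfid hef hfe
  have hpos : 0 < finrank K (LinearMap.range f) := by
    rw [Nat.pos_iff_ne_zero]
    intro h0
    exact hf0 (LinearMap.range_eq_bot.1 (Submodule.finrank_eq_zero.1 h0))
  have h2 : finrank K (LinearMap.range (e + f)) ≤ Nat.findGreatest P (finrank K V) :=
    Nat.le_findGreatest (hbd _) ⟨e + f, S.add_mem heS hfS, idem_add he hfid hef hfe, rfl⟩
  omega

/-- The bound for the rank. -/
lemma rank_le_of_nilpotent {q e : Module.End K V} (he : e * e = e) (h : IsNilpotent (q * e)) :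
    finrank K (LinearMap.range e) ≤ finrank K (LinearMap.range (1 - q)) := by
  obtain ⟨n, hn⟩ := h
  have h1 : ∀ x ∈ LinearMap.range e, (1 - q) x = 0 → x = 0 := by
    rintro x ⟨y, rfl⟩ hx
    rw [LinearMap.sub_apply, Module.End.one_apply, sub_eq_zero] at hx
    have h2 : (q * e) (e y) = e y := by
      rw [Module.End.mul_apply, ← Module.End.mul_apply e e, he, ← hx]
    have h3 : ∀ m : ℕ, ((q * e) ^ m) (e y) = e y := by
      intro m
      induction m with
      | zero => rw [pow_zero, Module.End.one_apply]
      | succ m ih => rw [pow_succ, Module.End.mul_apply, h2, ih]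
    rw [← h3 n, hn, LinearMap.zero_apply]
  let F : LinearMap.range e →ₗ[K] LinearMap.range (1 - q) :=
    (LinearMap.rangeRestrict (1 - q)) ∘ₗ (LinearMap.range e).subtype
  have hinj : Function.Injective F := by
    rw [← LinearMap.ker_eq_bot, LinearMap.ker_eq_bot']
    intro x hx
    have h4 : ((F x : LinearMap.range (1 - q)) : V) = 0 := by rw [hx]; rfl
    exact Subtype.ext (h1 x.1 x.2 h4)
  exact LinearMap.finrank_le_finrank_of_injective hinj

end Pool.Agent.N536.HK
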