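import Pool.Agent.N536.SG.Fin
import Pool.Agent.N536.HK.Lin

/-!
# Pure correspondences on a product
-/

set_option autoImplicit false

open CategoryTheory AlgebraicGeometry Finset TensorProduct Module

universe u v

namespace Pool.Agent.N536.HK

open Pool.Agent.H914 VarClass Obj WeilCohomology Pool.Agent.N190.CB Pool.Agent.N103.OC
  Pool.Agent.TH133.PW Pool.Agent.H447 Pool.Agent.N536.SG

variable {k : Type u} [Field k] {𝒱 : VarClass k} {ops : CycleOps 𝒱}
  {W : WeilCohomology.{u, v} ops} {X Y Z : 𝒱.Obj}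

lemma par_comm {a : Module.End W.K (W.H X)} (ha : a ∈ KOp W X X 0) :
    par (W.isInternal X) * a = a * par (W.isInternal X) := by
  apply gr_ext (W.isInternal X)
  intro i x hx
  rw [Module.End.mul_apply, Module.End.mul_apply, par, scal_apply _ _ hx,
    scal_apply _ _ (kop_gr ha i hx), map_smul]

/-- The combinations of correspondences whose image is even (`s = 1`) or odd (`s = -1`). -/
noncomputable def PureS (W : WeilCohomology.{u, v} ops) (X : 𝒱.Obj) (s : W.K) :
    Submodule W.K (Module.End W.K (W.H X)) where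
  carrier := {a | a ∈ KOp W X X 0 ∧ par (W.isInternal X) * a = s • a}
  zero_mem' := ⟨Submodule.zero_mem _, by simp⟩
  add_mem' := fun {a b} ha hb => ⟨Submodule.add_mem _ ha.1 hb.1, by
    rw [mul_add, ha.2, hb.2, smul_add]⟩
  smul_mem' := fun c a ha => ⟨Submodule.smul_mem _ _ ha.1, by
    rw [mul_smul_comm, ha.2, smul_comm]⟩

lemma mem_pureS {s : W.K} {a : Module.End W.K (W.H X)} :
    a ∈ PureS W X s ↔ a ∈ KOp W X X 0 ∧ par (W.isInternal X) * a = s • a := Iff.rfl

lemma pureS_mul {s : W.K} {a b : Module.End W.K (W.H X)} (ha : a ∈ PureS W X s)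
    (hb : b ∈ KOp W X X 0) : a * b ∈ PureS W X s :=
  ⟨kop_mul ha.1 hb, by rw [← mul_assoc, ha.2, smul_mul_assoc]⟩

lemma mul_pureS {s : W.K} {a b : Module.End W.K (W.H X)} (ha : a ∈ PureS W X s)
    (hb : b ∈ KOp W X X 0) : b * a ∈ PureS W X s :=
  ⟨kop_mul hb ha.1, by rw [← mul_assoc, par_comm hb, mul_assoc, ha.2, mul_smul_comm]⟩

lemma pureS_orth {s t : W.K} (hst : s ≠ t) {a b : Module.End W.K (W.H X)}
    (ha : a ∈ PureS W X s) (hb : b ∈ PureS W X t) : a * b = 0 := by
  have h1 : s • (a * b) = t • (a * b) := by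
    rw [← smul_mul_assoc, ← ha.2, par_comm ha.1, mul_assoc, hb.2, mul_smul_comm]
  apply LinearMap.ext
  intro x
  have h2 : s • (a * b) x = t • (a * b) x := congrArg (fun F : Module.End W.K (W.H X) => F x) h1
  rw [← sub_eq_zero, ← sub_smul] at h2
  exact (smul_eq_zero.1 h2).resolve_left (sub_ne_zero.2 hst)

lemma mem_pureS_of_kill {s : W.K} {a : Module.End W.K (W.H X)} (ha : a ∈ KOp W X X 0)
    (h : ∀ m : ℕ, (-1 : W.K) ^ m ≠ s → ∀ x ∈ W.gr X m, a x = 0) : a ∈ PureS W X s := by
  refine ⟨ha, gr_ext (W.isInternal X) fun i x hx => ?_⟩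
  rw [Module.End.mul_apply, LinearMap.smul_apply, par, scal_apply _ _ (kop_gr ha i hx)]
  by_cases hi : (-1 : W.K) ^ i = s
  · rw [hi]
  · rw [h i hi x hx, smul_zero, smul_zero]

lemma kill_of_mem_pureS {s : W.K} {a : Module.End W.K (W.H X)} (ha : a ∈ PureS W X s) {m : ℕ}
    (hm : (-1 : W.K) ^ m ≠ s) {x : W.H X} (hx : x ∈ W.gr X m) : a x = 0 := by
  have h1 := congrArg (fun F : Module.End W.K (W.H X) => F x) ha.2
  simp only [Module.End.mul_apply, LinearMap.smul_apply] at h1
  rw [par, scal_apply _ _ (kop_gr ha.1 m hx), ← sub_eq_zero, ← sub_smul] at h1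
  exact (smul_eq_zero.1 h1).resolve_left (sub_ne_zero.2 hm)

/-- Orthogonality to all pure correspondences. -/
def NK (W : WeilCohomology.{u, v} ops) (X : 𝒱.Obj) (q : Module.End W.K (W.H X)) : Prop :=
  ∀ s : W.K, s * s = 1 → ∀ a ∈ PureS W X s, str W X (a * q) = 0

lemma str_pure {s : W.K} {a : Module.End W.K (W.H X)} (ha : a ∈ PureS W X s)
    (q : Module.End W.K (W.H X)) :
    str W X (a * q) = s * LinearMap.trace W.K (W.H X) (q * a) := by
  rw [str_apply, ← mul_assoc, ha.2, smul_mul_assoc, map_smul, smul_eq_mul,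
    LinearMap.trace_mul_comm]

lemma sq_one {s : W.K} (hs : s * s = 1) : s = 1 ∨ s = -1 := mul_self_eq_one_iff.1 hs

lemma ne_zero_of_sq {s : W.K} (hs : s * s = 1) : s ≠ 0 := by
  rintro rfl
  simp at hs

/-- A sum of an even and an odd idempotent. -/
def Halves (W : WeilCohomology.{u, v} ops) (X : 𝒱.Obj) (e : Module.End W.K (W.H X)) : Prop :=
  ∃ e0 ∈ PureS W X 1, ∃ e1 ∈ PureS W X (-1), e0 * e0 = e0 ∧ e1 * e1 = e1 ∧ e = e0 + e1

lemma one_ne_neg_one' : (1 : W.K) ≠ -1 := by
  intro h
  have h2 : (2 : W.K) = 0 := by linear_combination h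
  exact two_ne_zero h2

lemma Halves.idem {e : Module.End W.K (W.H X)} (h : Halves W X e) : e * e = e := by
  obtain ⟨e0, h0, e1, h1, h2, h3, rfl⟩ := h
  exact idem_add h2 h3 (pureS_orth one_ne_neg_one' h0 h1)
    (pureS_orth (Ne.symm one_ne_neg_one') h1 h0)

lemma Halves.mem {e : Module.End W.K (W.H X)} (h : Halves W X e) : e ∈ KOp W X X 0 := by
  obtain ⟨e0, h0, e1, h1, h2, h3, rfl⟩ := h
  exact Submodule.add_mem _ h0.1 h1.1

/-- There is a largest sum of an even and an odd idempotent. -/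
lemma exists_halves (W : WeilCohomology.{u, v} ops) (X : 𝒱.Obj) :
    ∃ e, Halves W X e ∧ NK W X (1 - e) := by
  obtain ⟨e0, h0, h01, h02⟩ := exists_max_idem (PureS W X 1)
    fun a ha b hb => pureS_mul ha hb.1
  obtain ⟨e1, h1, h11, h12⟩ := exists_max_idem (PureS W X (-1))
    fun a ha b hb => pureS_mul ha hb.1
  refine ⟨e0 + e1, ⟨e0, h0, e1, h1, h01, h11, rfl⟩, fun s hs a ha => ?_⟩
  rw [str_pure ha]
  rcases sq_one hs with rfl | rfl
  · have h3 : e1 * a = 0 := pureS_orth (Ne.symm one_ne_neg_one') h1 ha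
    have h4 : (1 - (e0 + e1)) * a = (1 - e0) * a - e1 * a := by
      rw [sub_mul, sub_mul, add_mul, sub_add_eq_sub_sub]
    rw [h4, h3, sub_zero, h02 a ha, mul_zero]
  · have h3 : e0 * a = 0 := pureS_orth one_ne_neg_one' h0 ha
    have h4 : (1 - (e0 + e1)) * a = (1 - e1) * a - e0 * a := by
      rw [sub_mul, sub_mul, add_mul, sub_add_eq_sub_sub]
      abel
    rw [h4, h3, sub_zero, h12 a ha, mul_zero]

/-- The bound for the ranks. -/
lemma rank_halves_le {q e : Module.End W.K (W.H X)} (hq : q ∈ KOp W X X 0) (h : NK W X q)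
    (he : Halves W X e) :
    finrank W.K (LinearMap.range e) ≤ finrank W.K (LinearMap.range (1 - q)) := by
  apply rank_le_of_nilpotent he.idem
  apply isNilpotent_of_trace_pow
  intro r
  have hmem : ∀ r : ℕ, (q * e) ^ r ∈ KOp W X X 0 := by
    intro r
    induction r with
    | zero => exact KOp.id X
    | succ r ih => rw [pow_succ]; exact kop_mul ih (kop_mul hq he.mem)
  obtain ⟨e0, h0, e1, h1, h2, h3, he'⟩ := he
  have h4 : ∀ s : W.K, s * s = 1 → ∀ a ∈ PureS W X s,
      LinearMap.trace W.K (W.H X) (q * a) = 0 := by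
    intro s hs a ha
    have h5 := h s hs a ha
    rw [str_pure ha] at h5
    exact (mul_eq_zero.1 h5).resolve_left (ne_zero_of_sq hs)
  have h5 : (q * e) ^ (r + 1) = q * (e0 * (q * e) ^ r) + q * (e1 * (q * e) ^ r) := by
    rw [pow_succ', he', ← mul_add, ← add_mul, mul_assoc]
  rw [h5, map_add, h4 1 (by ring) _ (pureS_mul h0 (hmem r)),
    h4 (-1) (by ring) _ (pureS_mul h1 (hmem r)), add_zero]

/-- The partial trace over the second factor of a pure correspondence. -/
lemma ptrace_pure {s t : W.K} (ht : t * t = 1) {A : Module.End W.K (W.H (Y.prod X))}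
    (hA : A ∈ PureS W (Y.prod X) s) {ψ : Module.End W.K (W.H X)} (hψ : ψ ∈ PureS W X t) :
    ∃ T ∈ PureS W Y (s * t), ∀ F : Module.End W.K (W.H Y),
      str W (Y.prod X) (A * extOp W F ψ) = str W Y (T * F) := by
  obtain ⟨T, hT, h1⟩ := exists_ptrace hA.1 hψ.1
  have hT' : T ∈ KOp W Y Y 0 := KOp.cast hT (by ring)
  have h2 : ∀ F : Module.End W.K (W.H Y),
      str W (Y.prod X) (A * extOp W F ψ) = str W Y (T * F) := by
    intro F
    obtain ⟨f, hf⟩ := corr_bijective.2 F
    have hf' : W.corr f = F := hf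
    rw [← hf']
    exact h1 f
  refine ⟨T, ⟨hT', ?_⟩, h2⟩
  rw [par_comm hT']
  apply eq_of_str
  intro f
  rw [smul_mul_assoc, map_smul, ← h2, mul_assoc, ← h2]
  have h3 : extOp W (par (W.isInternal Y) * W.corr f) ψ =
      t • (par (W.isInternal (Y.prod X)) * extOp W (W.corr f) ψ) := by
    rw [par_prod, extOp_mul, hψ.2, extOp_smul_right, smul_smul, ht, one_smul]
  rw [h3, mul_smul_comm, map_smul, ← mul_assoc, ← par_comm hA.1, hA.2, smul_mul_assoc, map_smul,
    smul_eq_mul, smul_eq_mul, smul_eq_mul]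
  ring

lemma kop_exists_class {T : Module.End W.K (W.H X)} (hT : T ∈ KOp W X X 0) :
    ∃ g ∈ W.gr (X.prod X) (2 * X.dim), W.corr g = T := by
  induction hT using Submodule.span_induction with
  | mem x hx =>
    obtain ⟨p, hp, z, hz, rfl⟩ := hx
    have hp' : p = X.dim := by omega
    subst hp'
    exact ⟨W.cl _ z, W.cl_mem hz, rfl⟩
  | zero => exact ⟨0, Submodule.zero_mem _, W.corr_zero⟩
  | add x y _ _ hx hy =>
    obtain ⟨g, hg, rfl⟩ := hx
    obtain ⟨g', hg', rfl⟩ := hy
    exact ⟨g + g', Submodule.add_mem _ hg hg', W.corr_add _ _⟩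
  | smul a x _ hx =>
    obtain ⟨g, hg, rfl⟩ := hx
    exact ⟨a • g, Submodule.smul_mem _ _ hg, W.corr_smul _ _⟩

/-- The partial trace over the first factor of a pure correspondence. -/
lemma ptrace_pure' {s t : W.K} (ht : t * t = 1)
    {A : Module.End W.K (W.H (Y.prod X))}
    (hA : A ∈ PureS W (Y.prod X) s) {φ : Module.End W.K (W.H Y)} (hφ : φ ∈ PureS W Y t) :
    ∃ T ∈ PureS W X (s * t), ∀ F ∈ KOp W X X 0,
      str W (Y.prod X) (A * extOp W φ F) = str W X (T * F) := by
  obtain ⟨T, hT, h1⟩ := exists_ptrace' hA.1 hφ.1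
  have hT' : T ∈ KOp W X X 0 := KOp.cast hT (by ring)
  refine ⟨T, mem_pureS_of_kill hT' fun m hm x hx => ?_, fun F hF => ?_⟩
  · by_cases hm2 : m ≤ 2 * X.dim
    · have h2 : ∀ b ∈ W.gr X (2 * X.dim - m), W.tr X (b * T x) = 0 := by
        intro b hb
        set F : Module.End W.K (W.H X) := (W.tr X ∘ₗ LinearMap.mulLeft W.K b).smulRight x with hF
        have hg : W.map (swap X X) (W.map (fst X X) x * W.map (snd X X) b) ∈
            W.gr (X.prod X) (2 * X.dim) := by
          have := W.map_mem (swap X X) (W.mul_mem (W.map_mem (fst X X) hx)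
            (W.map_mem (snd X X) hb))
          rwa [show m + (2 * X.dim - m) = 2 * X.dim by omega] at this
        have h3 := h1 hg
        rw [corr_swap_tmul hx hb] at h3
        change str W (Y.prod X) (A * extOp W φ F) = str W X (T * F) at h3
        have h4 : par (W.isInternal X) * F = (-1 : W.K) ^ m • F := by
          apply LinearMap.ext
          intro y
          rw [Module.End.mul_apply, LinearMap.smul_apply, hF, LinearMap.smulRight_apply, map_smul,
            par, scal_apply _ _ hx, smul_comm]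
        have h5 : extOp W φ ((-1 : W.K) ^ m • F) =
            t • (par (W.isInternal (Y.prod X)) * extOp W φ F) := by
          rw [par_prod, extOp_mul, hφ.2, extOp_smul_left, smul_smul, ht, one_smul, h4]
        have h6 : (-1 : W.K) ^ m • str W (Y.prod X) (A * extOp W φ F) =
            (t * s) • str W (Y.prod X) (A * extOp W φ F) := by
          rw [← map_smul, ← mul_smul_comm, ← extOp_smul_right, h5, mul_smul_comm, map_smul,
            ← mul_assoc, ← par_comm hA.1, hA.2, smul_mul_assoc, map_smul, smul_smul]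
        have h7 : str W (Y.prod X) (A * extOp W φ F) = 0 := by
          have h8 : ((-1 : W.K) ^ m - t * s) • str W (Y.prod X) (A * extOp W φ F) = 0 := by
            rw [sub_smul, h6, sub_self]
          refine (smul_eq_zero.1 h8).resolve_left (sub_ne_zero.2 ?_)
          rwa [mul_comm t s]
        rw [h7] at h3
        have h9 : par (W.isInternal X) * (T * F) =
            (W.tr X ∘ₗ LinearMap.mulLeft W.K b).smulRight (par (W.isInternal X) (T x)) := by
          apply LinearMap.ext
          intro y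
          rw [Module.End.mul_apply, Module.End.mul_apply, hF, LinearMap.smulRight_apply,
            LinearMap.smulRight_apply, map_smul, map_smul]
        rw [str_apply, h9, LinearMap.trace_smulRight] at h3
        rw [LinearMap.comp_apply, LinearMap.mulLeft_apply, par,
          scal_apply _ _ (kop_gr hT' m hx), mul_smul_comm, map_smul] at h3
        exact (smul_eq_zero.1 h3.symm).resolve_left (pow_ne_zero _ (neg_ne_zero.2 one_ne_zero))
      apply nondeg_right
      intro b
      refine gr_induction (W.isInternal X) (p := fun b => W.tr X (b * T x) = 0) ?_ ?_ b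
      · intro l b hb
        by_cases hl : l = 2 * X.dim - m
        · subst hl
          exact h2 b hb
        · exact W.tr_eq_zero (W.mul_mem hb (kop_gr hT' m hx)) (by omega)
      · intro b b' hb hb'
        rw [add_mul, map_add, hb, hb', add_zero]
    · rw [gr_bot_of_lt (by omega), Submodule.mem_bot] at hx
      rw [hx, map_zero]
  · obtain ⟨g, hg, rfl⟩ := kop_exists_class hF
    exact h1 hg

/-- **Products.** -/
theorem nk_prod {e : Module.End W.K (W.H Y)} {f : Module.End W.K (W.H X)} (he : Halves W Y e)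
    (he' : NK W Y (1 - e)) (hf : Halves W X f) (hf' : NK W X (1 - f)) :
    NK W (Y.prod X) (extOp W e (1 - f) + extOp W (1 - e) f) := by
  intro s hs a ha
  have hfm : (1 - f) ∈ KOp W X X 0 := Submodule.sub_mem _ (KOp.id X) hf.mem
  obtain ⟨e0, h0, e1, h1, -, -, rfl⟩ := he
  obtain ⟨f0, h2, f1, h3, -, -, hff⟩ := hf
  have hprod : ∀ t : W.K, t * t = 1 → s * t * (s * t) = 1 := by
    intro t ht
    calc s * t * (s * t) = (s * s) * (t * t) := by ring
      _ = 1 := by rw [hs, ht, one_mul]
  have k1 : ∀ t : W.K, t * t = 1 → ∀ φ ∈ PureS W Y t,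
      str W (Y.prod X) (a * extOp W φ (1 - f)) = 0 := by
    intro t ht φ hφ
    obtain ⟨T, hT, h4⟩ := ptrace_pure' ht ha hφ
    rw [h4 _ hfm]
    exact hf' _ (hprod t ht) T hT
  have k2 : ∀ t : W.K, t * t = 1 → ∀ ψ ∈ PureS W X t,
      str W (Y.prod X) (a * extOp W (1 - (e0 + e1)) ψ) = 0 := by
    intro t ht ψ hψ
    obtain ⟨T, hT, h4⟩ := ptrace_pure ht ha hψ
    rw [h4]
    exact he' _ (hprod t ht) T hT
  rw [mul_add, map_add]
  have h5 : extOp W (e0 + e1) (1 - f) = extOp W e0 (1 - f) + extOp W e1 (1 - f) :=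
    extOp_add_left _ _ _
  have h6 : extOp W (1 - (e0 + e1)) f = extOp W (1 - (e0 + e1)) f0 +
      extOp W (1 - (e0 + e1)) f1 := by
    rw [hff]
    exact extOp_add_right _ _ _
  rw [h5, h6, mul_add, mul_add, map_add, map_add, k1 1 (by ring) e0 h0, k1 (-1) (by ring) e1 h1,
    k2 1 (by ring) f0 h2, k2 (-1) (by ring) f1 h3]
  simp

end Pool.Agent.N536.HK
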