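import Pool.Agent.N536.HK.Geo
import Pool.Agent.N536.HK.Defs

/-!
# The law for the even and odd direct summands
-/

set_option autoImplicit false

open CategoryTheory AlgebraicGeometry Finset TensorProduct Module

universe u v

namespace Pool.Agent.N536.HK

open Pool.Agent.H914 VarClass Obj WeilCohomology Pool.Agent.N190.CB Pool.Agent.N103.OC
  Pool.Agent.TH133.PW Pool.Agent.H447 Pool.Agent.N536.SG

variable {k : Type u} [Field k] {𝒱 : VarClass k} {ops : CycleOps 𝒱}
  {W : WeilCohomology.{u, v} ops} {X Y Z : 𝒱.Obj}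

lemma rank_compl {K V : Type*} [Field K] [CharZero K] [AddCommGroup V] [Module K V]
    [FiniteDimensional K V] {e : Module.End K V} (he : e * e = e) :
    finrank K (LinearMap.range e) + finrank K (LinearMap.range (1 - e)) = finrank K V := by
  have h1 : e * (1 - e) = 0 := by rw [mul_sub, he, mul_one, sub_self]
  have h2 : (1 - e) * e = 0 := by rw [sub_mul, he, one_mul, sub_self]
  rw [← rank_add he (idem_compl he) h1 h2, add_sub_cancel]
  have h3 : LinearMap.range (1 : Module.End K V) = ⊤ := LinearMap.range_id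
  rw [h3, finrank_top]

lemma even_iff_mem {e : Module.End W.K (W.H X)} :
    EvenSummand (W.gr X) (cycleOperators W X X.dim) e ↔ e ∈ PureS W X 1 ∧ e * e = e := by
  unfold EvenSummand
  rw [span_cycleOperators0]
  constructor
  · rintro ⟨h1, h2, h3⟩
    refine ⟨mem_pureS_of_kill h1 fun m hm x hx => h3 m ?_ x hx, h2⟩
    by_contra hcon
    exact hm (Nat.not_odd_iff_even.1 hcon).neg_one_pow
  · rintro ⟨h1, h2⟩
    refine ⟨h1.1, h2, fun m hm x hx => kill_of_mem_pureS h1 ?_ hx⟩
    rw [hm.neg_one_pow]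
    exact Ne.symm one_ne_neg_one'

lemma odd_iff_mem {e : Module.End W.K (W.H X)} :
    OddSummand (W.gr X) (cycleOperators W X X.dim) e ↔ e ∈ PureS W X (-1) ∧ e * e = e := by
  unfold OddSummand
  rw [span_cycleOperators0]
  constructor
  · rintro ⟨h1, h2, h3⟩
    refine ⟨mem_pureS_of_kill h1 fun m hm x hx => h3 m ?_ x hx, h2⟩
    by_contra hcon
    exact hm (Nat.not_even_iff_odd.1 hcon).neg_one_pow
  · rintro ⟨h1, h2⟩
    refine ⟨h1.1, h2, fun m hm x hx => kill_of_mem_pureS h1 ?_ hx⟩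
    rw [hm.neg_one_pow]
    exact one_ne_neg_one'

/-- The dimension of the largest sum of an even and an odd summand. -/
theorem isGreatest_ranks {e : Module.End W.K (W.H X)} (he : Halves W X e)
    (h : NK W X (1 - e)) :
    IsGreatest (ranksOf W X) (finrank W.K (LinearMap.range e)) := by
  have hmem : (1 - e) ∈ KOp W X X 0 := Submodule.sub_mem _ (KOp.id X) he.mem
  have hub : ∀ r ∈ summandRanks (W.gr X) (cycleOperators W X X.dim),
      r ≤ finrank W.K (LinearMap.range e) := by
    rintro r ⟨e₀, e₁, h0, h1, rfl⟩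
    rw [even_iff_mem] at h0
    rw [odd_iff_mem] at h1
    rw [← rank_add h0.2 h1.2 (pureS_orth one_ne_neg_one' h0.1 h1.1)
      (pureS_orth (Ne.symm one_ne_neg_one') h1.1 h0.1)]
    have h2 := rank_halves_le hmem h ⟨e₀, h0.1, e₁, h1.1, h0.2, h1.2, rfl⟩
    rwa [sub_sub_cancel] at h2
  obtain ⟨e0, h0, e1, h1, h2, h3, he'⟩ := id he
  have hin : finrank W.K (LinearMap.range e) ∈
      summandRanks (W.gr X) (cycleOperators W X X.dim) := by
    refine ⟨e0, e1, even_iff_mem.2 ⟨h0, h2⟩, odd_iff_mem.2 ⟨h1, h3⟩, ?_⟩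
    rw [he', rank_add h2 h3 (pureS_orth one_ne_neg_one' h0 h1)
      (pureS_orth (Ne.symm one_ne_neg_one') h1 h0)]
  exact ⟨hin, hub⟩

theorem evenOddDim_eq {e : Module.End W.K (W.H X)} (he : Halves W X e) (h : NK W X (1 - e)) :
    evenOddDim W X = finrank W.K (LinearMap.range e) := (isGreatest_ranks he h).csSup_eq

theorem isGreatest (W : WeilCohomology.{u, v} ops) (X : 𝒱.Obj) :
    IsGreatest (ranksOf W X) (evenOddDim W X) := by
  obtain ⟨e, he, h⟩ := exists_halves W X
  rw [evenOddDim_eq he h]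
  exact isGreatest_ranks he h

lemma evenOddDim_le (W : WeilCohomology.{u, v} ops) (X : 𝒱.Obj) :
    evenOddDim W X ≤ cohDim W X := by
  obtain ⟨e, he, h⟩ := exists_halves W X
  rw [evenOddDim_eq he h]
  exact Submodule.finrank_le _

/-- The bound for a product. -/
theorem evenOddDim_prod_le (W : WeilCohomology.{u, v} ops) (Y X : 𝒱.Obj) :
    evenOddDim W (Y.prod X) ≤ evenOddDim W Y * evenOddDim W X +
      (cohDim W Y - evenOddDim W Y) * (cohDim W X - evenOddDim W X) := by
  obtain ⟨e, he, he'⟩ := exists_halves W Y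
  obtain ⟨f, hf, hf'⟩ := exists_halves W X
  obtain ⟨g, hg, hg'⟩ := exists_halves W (Y.prod X)
  have hcy : cohDim W Y - evenOddDim W Y = finrank W.K (LinearMap.range (1 - e)) := by
    have := rank_compl he.idem
    rw [evenOddDim_eq he he', cohDim, ← this, Nat.add_sub_cancel_left]
  have hcx : cohDim W X - evenOddDim W X = finrank W.K (LinearMap.range (1 - f)) := by
    have := rank_compl hf.idem
    rw [evenOddDim_eq hf hf', cohDim, ← this, Nat.add_sub_cancel_left]
  rw [hcy, hcx, evenOddDim_eq he he', evenOddDim_eq hf hf', evenOddDim_eq hg hg']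
  have hq : extOp W e (1 - f) + extOp W (1 - e) f ∈ KOp W (Y.prod X) (Y.prod X) 0 := by
    have h1 : (1 - e) ∈ KOp W Y Y 0 := Submodule.sub_mem _ (KOp.id Y) he.mem
    have h2 : (1 - f) ∈ KOp W X X 0 := Submodule.sub_mem _ (KOp.id X) hf.mem
    exact Submodule.add_mem _ ((kop_class W).ext he.mem h2) ((kop_class W).ext h1 hf.mem)
  refine (rank_halves_le hq (nk_prod he he' hf hf') hg).trans ?_
  have h1 : (1 : Module.End W.K (W.H (Y.prod X))) - (extOp W e (1 - f) + extOp W (1 - e) f) =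
      extOp W e f + extOp W (1 - e) (1 - f) := by
    have h2 : (1 : Module.End W.K (W.H (Y.prod X))) = extOp W (e + (1 - e)) (f + (1 - f)) := by
      rw [add_sub_cancel, add_sub_cancel, extOp_one]
    rw [h2, extOp_add_left, extOp_add_right, extOp_add_right]
    abel
  have hef : extOp W e f * extOp W e f = extOp W e f := by
    rw [extOp_mul, he.idem, hf.idem]
  have hef' : extOp W (1 - e) (1 - f) * extOp W (1 - e) (1 - f) = extOp W (1 - e) (1 - f) := by
    rw [extOp_mul, idem_compl he.idem, idem_compl hf.idem]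
  have h3 : e * (1 - e) = 0 := by rw [mul_sub, he.idem, mul_one, sub_self]
  have h4 : (1 - e) * e = 0 := by rw [sub_mul, he.idem, one_mul, sub_self]
  rw [h1, rank_add hef hef' (by rw [extOp_mul, h3, extOp_zero_left])
    (by rw [extOp_mul, h4, extOp_zero_left])]
  apply le_of_eq
  congr 1
  · have h5 := trace_idem hef
    rw [trace_extOp, trace_idem he.idem, trace_idem hf.idem] at h5
    exact_mod_cast h5.symm
  · have h5 := trace_idem hef'
    rw [trace_extOp, trace_idem (idem_compl he.idem), trace_idem (idem_compl hf.idem)] at h5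
    exact_mod_cast h5.symm

lemma cohDim_prod (W : WeilCohomology.{u, v} ops) (Y X : 𝒱.Obj) :
    cohDim W (Y.prod X) = cohDim W Y * cohDim W X := by
  rw [cohDim, ← LinearEquiv.finrank_eq (kappa W Y X), finrank_tensorProduct]
  rfl

lemma cohDim_pw (W : WeilCohomology.{u, v} ops) (X : 𝒱.Obj) (n : ℕ) :
    cohDim W (pw X (n + 1)) = cohDim W X ^ (n + 1) := by
  induction n with
  | zero => rw [zero_add, pow_one]; rfl
  | succ n ih =>
    rw [pow_succ, ← ih]
    exact cohDim_prod W (pw X (n + 1)) X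

/-- The sign conjecture holds if the summand is everything. -/
theorem sign_of_eq (h : evenOddDim W X = cohDim W X) : SignStd W X := by
  obtain ⟨e, he, he'⟩ := exists_halves W X
  rw [evenOddDim_eq he he'] at h
  have h1 : LinearMap.range e = ⊤ := Submodule.eq_top_of_finrank_eq h
  have h2 : e = 1 := by
    apply LinearMap.ext
    intro x
    obtain ⟨y, rfl⟩ : x ∈ LinearMap.range e := by rw [h1]; trivial
    rw [← Module.End.mul_apply, he.idem, Module.End.one_apply]
  obtain ⟨e0, h0, e1, h3, h4, h5, rfl⟩ := he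
  apply signStd_of_span
  refine ⟨e0, ?_, fun j a ha => ?_⟩
  · rw [span_cycleOperators0]
    exact h0.1
  · have h6 : e0 a + e1 a = a := by
      rw [← LinearMap.add_apply, h2, Module.End.one_apply]
    split_ifs with hj
    · have h7 : e1 a = 0 := kill_of_mem_pureS h3 (by
        rw [hj.neg_one_pow]; exact one_ne_neg_one') ha
      rwa [h7, add_zero] at h6
    · exact kill_of_mem_pureS h0 (by
        rw [(Nat.not_even_iff_odd.1 hj).neg_one_pow]; exact Ne.symm one_ne_neg_one') ha

/-- If the sign conjecture holds, the summand is everything. -/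
theorem eq_of_sign (h : SignStd W X) : evenOddDim W X = cohDim W X := by
  obtain ⟨z, hz, hP⟩ := h
  set P := W.corr (W.cl (X.prod X) z) with hPdef
  have hPm : P ∈ KOp W X X 0 := by
    rw [← span_cycleOperators0]
    exact Submodule.subset_span ⟨z, hz, rfl⟩
  have hPP : P * P = P := by
    apply gr_ext (W.isInternal X)
    intro i x hx
    rw [Module.End.mul_apply, hP i x hx]
    split_ifs with hi
    · rw [hP i x hx, if_pos hi]
    · rw [map_zero]
  have h0 : P ∈ PureS W X 1 := mem_pureS_of_kill hPm fun m hm x hx => by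
    rw [hP m x hx, if_neg]
    intro hm'
    exact hm hm'.neg_one_pow
  have h1 : (1 - P) ∈ PureS W X (-1) := mem_pureS_of_kill (Submodule.sub_mem _ (KOp.id X) hPm)
    fun m hm x hx => by
      rw [LinearMap.sub_apply, Module.End.one_apply, hP m x hx, if_pos, sub_self]
      by_contra hm'
      exact hm (Nat.not_even_iff_odd.1 hm').neg_one_pow
  have h2 : Halves W X 1 := ⟨P, h0, 1 - P, h1, hPP, idem_compl hPP, by rw [add_sub_cancel]⟩
  have h3 : NK W X (1 - 1) := by
    intro s _ a _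
    rw [sub_self, mul_zero, map_zero]
  rw [evenOddDim_eq h2 h3]
  have h4 : LinearMap.range (1 : Module.End W.K (W.H X)) = ⊤ := LinearMap.range_id
  rw [h4, finrank_top]
  rfl

lemma cohDim_eq_total (W : WeilCohomology.{u, v} ops) (X : 𝒱.Obj) :
    cohDim W X = totalBetti W X := finrank_eq_sum (W.isInternal X) fun i hi => gr_bot_of_lt (by omega)

/-- The recursion. -/
lemma recursion (W : WeilCohomology.{u, v} ops) (X : 𝒱.Obj) (n : ℕ) :
    2 * (evenOddDim W (pw X (n + 2)) : ℤ) - (cohDim W X : ℤ) ^ (n + 2) ≤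
      (2 * evenOddDim W X - cohDim W X) *
        (2 * (evenOddDim W (pw X (n + 1)) : ℤ) - (cohDim W X : ℤ) ^ (n + 1)) := by
  have h1 : evenOddDim W (pw X (n + 2)) ≤ evenOddDim W (pw X (n + 1)) * evenOddDim W X +
      (cohDim W (pw X (n + 1)) - evenOddDim W (pw X (n + 1))) *
        (cohDim W X - evenOddDim W X) := evenOddDim_prod_le W (pw X (n + 1)) X
  rw [cohDim_pw] at h1
  have h2 : evenOddDim W (pw X (n + 1)) ≤ cohDim W X ^ (n + 1) := by
    rw [← cohDim_pw]
    exact evenOddDim_le W _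
  have h3 := evenOddDim_le W X
  have h4 : (evenOddDim W (pw X (n + 2)) : ℤ) ≤ (evenOddDim W (pw X (n + 1)) : ℤ) *
      evenOddDim W X + ((cohDim W X : ℤ) ^ (n + 1) - evenOddDim W (pw X (n + 1))) *
        ((cohDim W X : ℤ) - evenOddDim W X) := by
    have h5 : ((evenOddDim W (pw X (n + 1)) * evenOddDim W X +
      (cohDim W X ^ (n + 1) - evenOddDim W (pw X (n + 1))) *
        (cohDim W X - evenOddDim W X) : ℕ) : ℤ) = (evenOddDim W (pw X (n + 1)) : ℤ) *
      evenOddDim W X + ((cohDim W X : ℤ) ^ (n + 1) - evenOddDim W (pw X (n + 1))) *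
        ((cohDim W X : ℤ) - evenOddDim W X) := by
      push_cast [Nat.cast_sub h2, Nat.cast_sub h3]
      ring
    rw [← h5]
    exact_mod_cast h1
  have h6 : (cohDim W X : ℤ) ^ (n + 2) = (cohDim W X : ℤ) ^ (n + 1) * cohDim W X := pow_succ _ _
  rw [h6]
  linarith

/-- **The law, one variety.** -/
theorem halfAt (hC : ¬ SignStd W X) (n : ℕ) : HalfAt W X (n + 1) := by
  set b := cohDim W X with hb
  set c := evenOddDim W X with hc
  have hlt : c < b := lt_of_le_of_ne (evenOddDim_le W X) fun h => hC (sign_of_eq h)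
  have hrec := recursion W X
  unfold HalfAt
  rw [← hb]
  by_cases h0 : (0 : ℤ) ≤ 2 * c - b
  · left
    have hb2 : 2 ≤ b := by omega
    have h1 : ∀ m : ℕ, 2 * (evenOddDim W (pw X (m + 1)) : ℤ) - (b : ℤ) ^ (m + 1) ≤
        (2 * c - b : ℤ) ^ (m + 1) := by
      intro m
      induction m with
      | zero =>
        have : pw X (0 + 1) = X := rfl
        rw [this, ← hc, zero_add, pow_one, pow_one]
      | succ m ih =>
        refine (hrec m).trans ?_
        rw [pow_succ (2 * c - b : ℤ), mul_comm ((2 * c - b : ℤ) ^ (m + 1))]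
        exact mul_le_mul_of_nonneg_left ih h0
    have h2 : (2 * c - b : ℤ) ^ (n + 1) ≤ ((b - 2 : ℕ) : ℤ) ^ (n + 1) := by
      apply pow_le_pow_left₀ h0
      rw [Nat.cast_sub hb2]
      push_cast
      omega
    have h3 := (h1 n).trans h2
    zify
    linarith
  · push Not at h0
    by_cases h1 : (0 : ℤ) ≤ 2 * (evenOddDim W (pw X (n + 1)) : ℤ) - (b : ℤ) ^ (n + 1)
    · right
      have h2 := hrec n
      have h3 : (2 * c - b : ℤ) * (2 * (evenOddDim W (pw X (n + 1)) : ℤ) - (b : ℤ) ^ (n + 1)) ≤ 0 :=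
        mul_nonpos_of_nonpos_of_nonneg h0.le h1
      have h4 : 2 * (evenOddDim W (pw X (n + 1 + 1)) : ℤ) ≤ (b : ℤ) ^ (n + 1 + 1) := by
        have h5 := h2.trans h3
        linarith
      have h6 : 2 * evenOddDim W (pw X (n + 1 + 1)) ≤ b ^ (n + 1 + 1) := by exact_mod_cast h4
      exact h6.trans (Nat.le_add_right _ _)
    · left
      push Not at h1
      have h4 : 2 * (evenOddDim W (pw X (n + 1)) : ℤ) ≤ (b : ℤ) ^ (n + 1) := by linarith
      have h6 : 2 * evenOddDim W (pw X (n + 1)) ≤ b ^ (n + 1) := by exact_mod_cast h4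
      exact h6.trans (Nat.le_add_right _ _)

open Filter

/-- **The law.** -/
theorem signFromRate (W : WeilCohomology.{u, v} ops) : SignFromRate W := by
  rintro f hf X ⟨m₀, h⟩
  by_contra hC
  set b := cohDim W X with hb
  have hb2 : 2 ≤ b := by
    rw [hb, cohDim_eq_total]
    exact two_le_total hC
  set θ : ℝ := max (1 - 2 / b) (1 / 2) with hθ
  have hbR : (2 : ℝ) ≤ b := by exact_mod_cast hb2
  have hθ0 : 0 < θ := lt_of_lt_of_le (by norm_num) (le_max_right _ _)
  have hθ1 : θ < 1 := max_lt (by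
    have : 0 < 2 / (b : ℝ) := by positivity
    linarith) (by norm_num)
  have hθb : (b : ℝ) - 2 ≤ θ * b := by
    have h1 : 1 - 2 / (b : ℝ) ≤ θ := le_max_left _ _
    have h2 : (1 - 2 / (b : ℝ)) * b = b - 2 := by
      field_simp
    rw [← h2]
    exact mul_le_mul_of_nonneg_right h1 (by linarith)
  set κ : ℝ := -Real.log θ / Real.log b with hκ
  have hlogb : 0 < Real.log b := Real.log_pos (by linarith)
  have hlogθ : Real.log θ < 0 := Real.log_neg hθ0 hθ1
  have hκ0 : 0 < κ := div_pos (by linarith) hlogb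
  have hbκ : (b : ℝ) ^ κ * θ = 1 := by
    rw [Real.rpow_def_of_pos (by linarith), hκ, mul_div_cancel₀ _ hlogb.ne', Real.exp_neg,
      Real.exp_log hθ0, inv_mul_cancel₀ hθ0.ne']
  have h1 : Tendsto (fun n : ℕ => b ^ n) atTop atTop :=
    _root_.tendsto_pow_atTop_atTop_of_one_lt (by omega : 1 < b)
  have h2 := ((hf κ hκ0).comp h1).eventually_gt_atTop 1
  rw [eventually_atTop] at h2
  obtain ⟨n₀, hn₀⟩ := h2
  -- a large exponent
  obtain ⟨N, hN, hN'⟩ : ∃ N, n₀ + m₀ ≤ N ∧
      2 * evenOddDim W (pw X (N + 1)) ≤ b ^ (N + 1) + (b - 2) ^ (N + 1) := by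
    rcases halfAt hC (n₀ + m₀) with h3 | h3
    · exact ⟨n₀ + m₀, le_rfl, h3⟩
    · exact ⟨n₀ + m₀ + 1, Nat.le_succ _, h3⟩
  have h3 := h (N + 1) (by omega)
  rw [MoreThanHalf, cohDim_pw, ← hb] at h3
  have h4 := hn₀ (N + 1) (by omega)
  simp only [Function.comp_apply] at h4
  have h5 : (2 : ℝ) * evenOddDim W (pw X (N + 1)) ≤ (b : ℝ) ^ (N + 1) +
      ((b : ℝ) - 2) ^ (N + 1) := by
    have h6 : ((2 * evenOddDim W (pw X (N + 1)) : ℕ) : ℝ) ≤
        ((b ^ (N + 1) + (b - 2) ^ (N + 1) : ℕ) : ℝ) := by exact_mod_cast hN'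
    push_cast [Nat.cast_sub hb2] at h6
    exact h6
  have h6 : ((b : ℝ) - 2) ^ (N + 1) ≤ θ ^ (N + 1) * (b : ℝ) ^ (N + 1) := by
    rw [← mul_pow]
    exact pow_le_pow_left₀ (by linarith) hθb _
  have hBpos : (0 : ℝ) < (b : ℝ) ^ (N + 1) := by positivity
  push_cast at h3
  have h7 : 2 * f (b ^ (N + 1)) * (b : ℝ) ^ (N + 1) ≤ θ ^ (N + 1) * (b : ℝ) ^ (N + 1) := by
    nlinarith
  have h8 : 2 * f (b ^ (N + 1)) ≤ θ ^ (N + 1) := le_of_mul_le_mul_right h7 hBpos
  have h9 : ((b ^ (N + 1) : ℕ) : ℝ) ^ κ = ((b : ℝ) ^ κ) ^ (N + 1) := by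
    push_cast
    rw [← Real.rpow_natCast, ← Real.rpow_natCast, ← Real.rpow_mul (by linarith),
      ← Real.rpow_mul (by linarith), mul_comm]
  rw [h9] at h4
  have h10 : (0 : ℝ) < ((b : ℝ) ^ κ) ^ (N + 1) := by positivity
  have h11 : 2 * f (b ^ (N + 1)) * ((b : ℝ) ^ κ) ^ (N + 1) ≤ 1 := by
    refine (mul_le_mul_of_nonneg_right h8 h10.le).trans (le_of_eq ?_)
    rw [← mul_pow, mul_comm θ, hbκ, one_pow]
  nlinarith

/-- **The law with a constant.** -/
theorem signIffHalf (W : WeilCohomology.{u, v} ops) : SignIffHalf W := by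
  intro ε h0 h1
  have hrate : ∀ κ : ℝ, 0 < κ → Tendsto (fun y : ℕ => ε * (y : ℝ) ^ κ) atTop atTop := by
    intro κ hκ
    apply Tendsto.const_mul_atTop h0
    exact (tendsto_rpow_atTop hκ).comp tendsto_natCast_atTop_atTop
  have hof : ∀ Y : 𝒱.Obj, SignStd W Y → MoreThanHalf W (fun _ => ε) Y := by
    intro Y h
    rw [MoreThanHalf, eq_of_sign h]
    have h2 : (0 : ℝ) ≤ cohDim W Y := by positivity
    nlinarith
  refine ⟨fun X => ⟨fun h => ⟨1, fun n hn => ?_⟩, fun h => ?_⟩,
    fun h Y => hof Y (h Y), fun h X => ?_⟩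
  · obtain ⟨n, rfl⟩ := Nat.exists_eq_add_of_le' hn
    exact hof _ (signStd_pw h n)
  · exact signFromRate W (fun _ => ε) hrate X h
  · exact signFromRate W (fun _ => ε) hrate X ⟨0, fun n _ => h _⟩

end Pool.Agent.N536.HK
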